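import Pool.Agent.Helper76.TW.Goals
import Pool.Agent.Helper88.CR.OM
import Pool.Agent.Helper37.PP.HM

/-!
# MP_74f661_nt, project T74, packet JP: the points of the window in every class `b`
-/

set_option autoImplicit false

open Finset Filter Topology

open scoped Classical

namespace Pool.Agent.Helper36.TW

open Pool.Agent.Helper76.TW
open Pool.Agent.Helper88.PP (pr Rg om)
open Pool.Agent.Helper88.RR (gg)

theorem tele (y : ℕ) (hy : 2 ≤ y) (k : ℕ) :
    ∏ n ∈ Ioc y (y + k), (1 - 1 / ((n : ℝ) - 1) ^ 2) =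
      ((y : ℝ) - 1) / y * (((y + k : ℕ) : ℝ) / (((y + k : ℕ) : ℝ) - 1)) := by
  have hy' : (2 : ℝ) ≤ y := by exact_mod_cast hy
  induction k with
  | zero =>
    simp only [add_zero, Finset.Ioc_self, Finset.prod_empty]
    have h1 : (y : ℝ) - 1 ≠ 0 := by linarith
    have h2 : (y : ℝ) ≠ 0 := by linarith
    field_simp
  | succ k ih =>
    rw [← add_assoc, Finset.prod_Ioc_succ_top (by omega), ih]
    push_cast
    have hk : (0 : ℝ) ≤ k := Nat.cast_nonneg k
    have h1 : (y : ℝ) + k - 1 ≠ 0 := by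
      have : 0 < (y : ℝ) + k - 1 := by linarith
      exact this.ne'
    have h2 : (y : ℝ) ≠ 0 := by linarith
    have h3 : (y : ℝ) + k ≠ 0 := by
      have : 0 < (y : ℝ) + k := by linarith
      exact this.ne'
    have h4 : (y : ℝ) + k + 1 - 1 = y + k := by ring
    rw [h4]
    field_simp
    ring

theorem gg_upper (y z : ℕ) : gg y z 2 ≤ om y z ^ 2 := by
  unfold gg om
  rw [← Finset.prod_pow]
  refine Finset.prod_le_prod (fun p hp => ?_) (fun p hp => ?_)
  · have h2 : (2 : ℝ) ≤ p := by exact_mod_cast (Finset.mem_filter.1 hp).2.two_le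
    rw [sub_nonneg, div_le_one (by linarith)]
    exact_mod_cast h2
  · have : (1 - 1 / (p : ℝ)) ^ 2 = 1 - 2 / p + (1 / p) ^ 2 := by ring
    rw [this]
    have := sq_nonneg (1 / (p : ℝ))
    push_cast
    linarith

theorem gg_lower (y z : ℕ) (hy : 4 ≤ y) (hyz : y ≤ z) : om y z ^ 2 / 2 ≤ gg y z 2 := by
  have hy' : (4 : ℝ) ≤ y := by exact_mod_cast hy
  have h1 : gg y z 2 = om y z ^ 2 * ∏ p ∈ pr y z, (1 - 1 / ((p : ℝ) - 1) ^ 2) := by
    unfold gg om
    rw [← Finset.prod_pow, ← Finset.prod_mul_distrib]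
    refine Finset.prod_congr rfl fun p hp => ?_
    have h2 : (2 : ℝ) ≤ p := by exact_mod_cast (Finset.mem_filter.1 hp).2.two_le
    have h3 : (p : ℝ) ≠ 0 := by linarith
    have h4 : (p : ℝ) - 1 ≠ 0 := by
      have : 0 < (p : ℝ) - 1 := by linarith
      exact this.ne'
    push_cast
    field_simp
    ring
  have hf : ∀ n ∈ Ioc y z, (0 : ℝ) ≤ 1 / ((n : ℝ) - 1) ^ 2 ∧ 1 / ((n : ℝ) - 1) ^ 2 ≤ 1 := by
    intro n hn
    have h5 : y < n := (Finset.mem_Ioc.1 hn).1
    have h6 : (y : ℝ) + 1 ≤ n := by exact_mod_cast h5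
    refine ⟨by positivity, ?_⟩
    rw [div_le_one (by nlinarith)]
    nlinarith
  have h7 : (1 / 2 : ℝ) ≤ ∏ p ∈ pr y z, (1 - 1 / ((p : ℝ) - 1) ^ 2) := by
    obtain ⟨k, rfl⟩ := Nat.exists_eq_add_of_le hyz
    have h8 := tele y (by omega) k
    have h9 : ∏ n ∈ Ioc y (y + k), (1 - 1 / ((n : ℝ) - 1) ^ 2) ≤
        ∏ p ∈ pr y (y + k), (1 - 1 / ((p : ℝ) - 1) ^ 2) := by
      unfold pr
      rw [Finset.prod_filter]
      refine Finset.prod_le_prod (fun n hn => ?_) (fun n hn => ?_)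
      · have := (hf n hn).2
        linarith
      · split_ifs
        · exact le_refl _
        · have := (hf n hn).1
          linarith
    refine le_trans ?_ h9
    rw [h8]
    have h10 : (1 / 2 : ℝ) ≤ ((y : ℝ) - 1) / y := by
      rw [le_div_iff₀ (by linarith)]
      linarith
    have h11 : (1 : ℝ) ≤ ((y + k : ℕ) : ℝ) / (((y + k : ℕ) : ℝ) - 1) := by
      have hk : (0 : ℝ) ≤ k := Nat.cast_nonneg k
      rw [le_div_iff₀ (by push_cast; linarith)]
      linarith
    nlinarith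
  rw [h1]
  have h12 : 0 ≤ om y z ^ 2 := sq_nonneg _
  nlinarith

theorem ggb (W₀ : ℕ) (hW : 4 ≤ W₀) : ∃ c C : ℝ, 0 < c ∧ 0 < C ∧ ∀ w : ℕ, W₀ ≤ w →
    c / Real.log w ^ 2 ≤ gg W₀ w 2 ∧ gg W₀ w 2 ≤ C / Real.log w ^ 2 := by
  obtain ⟨c0, hc0, hlow⟩ := Pool.Agent.Helper88.CR.om_lower
  obtain ⟨C0, hC0, hup⟩ := Pool.Agent.Helper37.PP.mp
  have hW' : (4 : ℝ) ≤ W₀ := by exact_mod_cast hW
  have hL : 0 < Real.log W₀ := Real.log_pos (by linarith)
  refine ⟨(c0 * Real.log W₀) ^ 2 / 2, (C0 * Real.log W₀) ^ 2, by positivity, by positivity,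
    fun w hw => ?_⟩
  have hw' : (W₀ : ℝ) ≤ w := by exact_mod_cast hw
  have hlw : 0 < Real.log w := Real.log_pos (by linarith)
  have h1 := hlow W₀ w (by omega) hw
  have h2 := hup W₀ w (by omega) hw
  have h3 : 0 ≤ c0 * (Real.log W₀ / Real.log w) := by positivity
  constructor
  · refine le_trans ?_ (gg_lower W₀ w hW hw)
    have h4 : (c0 * (Real.log W₀ / Real.log w)) ^ 2 ≤ om W₀ w ^ 2 := pow_le_pow_left₀ h3 h1 2
    have h5 : (c0 * Real.log W₀) ^ 2 / 2 / Real.log w ^ 2 =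
        (c0 * (Real.log W₀ / Real.log w)) ^ 2 / 2 := by
      field_simp
    rw [h5]
    linarith
  · refine (gg_upper W₀ w).trans ?_
    have h4 : om W₀ w ^ 2 ≤ (C0 * (Real.log W₀ / Real.log w)) ^ 2 :=
      pow_le_pow_left₀ (h3.trans h1) h2 2
    refine h4.trans (le_of_eq ?_)
    field_simp

theorem exres {p q : ℕ} (x : ℕ) (hp : p.Prime) (hpq : ¬ p ∣ q) : ∃ c, p ∣ x + q * c := by
  have hco : Nat.Coprime q p := ((Nat.Prime.coprime_iff_not_dvd hp).2 hpq).symm
  obtain ⟨m, _, hm⟩ := Nat.exists_mul_mod_eq_one_of_coprime hco hp.one_lt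
  refine ⟨m * ((p - 1) * x), ?_⟩
  have h1 : q * m ≡ 1 [MOD p] := by
    unfold Nat.ModEq
    rw [hm, Nat.mod_eq_of_lt hp.one_lt]
  have h2 : x + q * (m * ((p - 1) * x)) ≡ x + 1 * ((p - 1) * x) [MOD p] := by
    rw [← mul_assoc]
    exact (h1.mul_right _).add_left x
  have h3 : x + 1 * ((p - 1) * x) = p * x := by
    obtain ⟨k, hk⟩ : ∃ k, p = k + 1 := ⟨p - 1, by have := hp.one_lt; omega⟩
    rw [hk, Nat.add_sub_cancel]
    ring
  rw [h3] at h2
  exact (Nat.modEq_zero_iff_dvd.1 (h2.trans (Nat.modEq_zero_iff_dvd.2 (dvd_mul_right p x))))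

/-- coprime to `Qm` from conditions at all primes -/
theorem cop {q p₁ w n : ℕ} (h1 : Nat.Coprime n q)
    (h2 : ∀ p ∈ (Icc 1 w).filter (fun p => p.Prime ∧ p ≠ p₁ ∧ ¬ p ∣ q), ¬ p ∣ n) :
    Nat.Coprime n (Qm q p₁ w) := by
  unfold Qm
  refine Nat.Coprime.mul_right h1 (Nat.Coprime.prod_right fun p hp => ?_)
  exact ((Nat.Prime.coprime_iff_not_dvd (Finset.mem_filter.1 hp).2.1).2 (h2 p hp)).symm

theorem cop_not {q p₁ w n p : ℕ} (h : Nat.Coprime n (Qm q p₁ w)) (hp : p.Prime) (hpw : p ≤ w)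
    (hne : p ≠ p₁) : ¬ p ∣ n := by
  intro hd
  have h1 : p ∣ Qm q p₁ w := by
    unfold Qm
    by_cases hq : p ∣ q
    · exact hq.mul_right _
    · refine Dvd.dvd.mul_left (Finset.dvd_prod_of_mem (fun p => p) ?_) q
      exact Finset.mem_filter.2 ⟨Finset.mem_Icc.2 ⟨hp.one_le, hpw⟩, hp, hne, hq⟩
  have h2 : p ∣ Nat.gcd n (Qm q p₁ w) := Nat.dvd_gcd hd h1
  rw [h] at h2
  exact hp.one_lt.ne' (Nat.dvd_one.1 h2)

/-- the conditions of `StmtPC` -/
noncomputable def SC (W₀ w H M t h0 : ℕ) (c c' : ℕ → ℕ) : Finset ℕ :=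
  (Ioc t (t + H)).filter (fun h => h ≡ h0 [MOD M] ∧
      ∀ p ∈ pr W₀ w, ¬ h ≡ c p [MOD p] ∧ ¬ h ≡ c' p [MOD p])

theorem upper {W₀ W₁ D₀ : ℕ} (hW0 : 4 ≤ W₀)
    (hPC : ∀ (w H M t h0 : ℕ) (c c' : ℕ → ℕ),
      W₁ ≤ w → 1 ≤ M → (∀ p ∈ pr W₀ w, ¬ p ∣ M ∧ ¬ c p ≡ c' p [MOD p]) → M * w ^ D₀ ≤ H →
      ((SC W₀ w H M t h0 c c').card : ℝ) ≤ 2 * ((H : ℝ) / M * gg W₀ w 2))
    {q w p₁ b H : ℕ} (hw : W₁ ≤ w) (hp5 : 5 ≤ p₁) (hH : w ^ D₀ ≤ H) :
    (((Icc 1 H).filter (fun h => Nat.Coprime (b + h) (Qm q p₁ w) ∧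
      Nat.Coprime (b + h + 2) (Qm q p₁ w))).card : ℝ) ≤ 4 * (H * gg W₀ w 2) := by
  set S := (Icc 1 H).filter (fun h => Nat.Coprime (b + h) (Qm q p₁ w) ∧
      Nat.Coprime (b + h + 2) (Qm q p₁ w)) with hS
  -- the residues
  have hc : ∀ p : ℕ, p.Prime → p ∣ b + (p - 1) * b := by
    intro p hp
    obtain ⟨k, hk⟩ : ∃ k, p = k + 1 := ⟨p - 1, by have := hp.one_lt; omega⟩
    refine ⟨b, ?_⟩
    rw [hk, Nat.add_sub_cancel]
    ring
  have hc2 : ∀ p : ℕ, p.Prime → p ∣ b + 2 + (p - 1) * (b + 2) := by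
    intro p hp
    obtain ⟨k, hk⟩ : ∃ k, p = k + 1 := ⟨p - 1, by have := hp.one_lt; omega⟩
    refine ⟨b + 2, ?_⟩
    rw [hk, Nat.add_sub_cancel]
    ring
  have main : ∀ u : ℕ, u + 1 < p₁ →
      ((SC W₀ w H 1 0 0 (fun p => if p = p₁ then u else (p - 1) * b)
        (fun p => if p = p₁ then u + 1 else (p - 1) * (b + 2))).card : ℝ) ≤
        2 * (H * gg W₀ w 2) := by
    intro u hu
    have h1 := hPC w H 1 0 0 (fun p => if p = p₁ then u else (p - 1) * b)
        (fun p => if p = p₁ then u + 1 else (p - 1) * (b + 2)) hw le_rfl (fun p hp => ?_)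
        (by rw [one_mul]; exact hH)
    · rwa [Nat.cast_one, div_one] at h1
    · obtain ⟨hp', hpp⟩ := Finset.mem_filter.1 hp
      have hp'' := Finset.mem_Ioc.1 hp'
      refine ⟨fun h => hpp.one_lt.ne' (Nat.dvd_one.1 h), ?_⟩
      split_ifs with h2
      · intro h3
        rw [h2] at h3
        unfold Nat.ModEq at h3
        rw [Nat.mod_eq_of_lt (by omega), Nat.mod_eq_of_lt hu] at h3
        omega
      · intro h3
        have h4 : b + (p - 1) * b + 2 ≡ b + 2 + (p - 1) * (b + 2) [MOD p] := by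
          have : b + (p - 1) * b + 2 = b + 2 + (p - 1) * b := by ring
          rw [this]
          exact h3.add_left _
        have h5 : b + (p - 1) * b + 2 ≡ 0 [MOD p] :=
          h4.trans (Nat.modEq_zero_iff_dvd.2 (hc2 p hpp))
        have h6 : p ∣ 2 := (Nat.dvd_add_right (hc p hpp)).1 (Nat.modEq_zero_iff_dvd.1 h5)
        have := Nat.le_of_dvd (by norm_num) h6
        omega
  have hmem : ∀ h ∈ S, ∀ u : ℕ, (¬ h ≡ u [MOD p₁] ∧ ¬ h ≡ u + 1 [MOD p₁]) →
      h ∈ SC W₀ w H 1 0 0 (fun p => if p = p₁ then u else (p - 1) * b)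
        (fun p => if p = p₁ then u + 1 else (p - 1) * (b + 2)) := by
    intro h hh u hu
    obtain ⟨h1, h2, h3⟩ := Finset.mem_filter.1 hh
    have h1' := Finset.mem_Icc.1 h1
    refine Finset.mem_filter.2 ⟨Finset.mem_Ioc.2 ⟨by omega, by omega⟩, Nat.modEq_one, ?_⟩
    intro p hp
    obtain ⟨hp', hpp⟩ := Finset.mem_filter.1 hp
    have hp'' := Finset.mem_Ioc.1 hp'
    simp only
    split_ifs with h4
    · rw [h4]
      exact hu
    · constructor
      · intro h5
        refine cop_not h2 hpp hp''.2 h4 ?_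
        exact Nat.modEq_zero_iff_dvd.1
          ((h5.add_left b).trans (Nat.modEq_zero_iff_dvd.2 (hc p hpp)))
      · intro h5
        refine cop_not h3 hpp hp''.2 h4 ?_
        have h6 : b + h + 2 = b + 2 + h := by ring
        rw [h6]
        exact Nat.modEq_zero_iff_dvd.1
          ((h5.add_left (b + 2)).trans (Nat.modEq_zero_iff_dvd.2 (hc2 p hpp)))
  have hsub : S ⊆ SC W₀ w H 1 0 0 (fun p => if p = p₁ then 0 else (p - 1) * b)
        (fun p => if p = p₁ then 0 + 1 else (p - 1) * (b + 2)) ∪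
      SC W₀ w H 1 0 0 (fun p => if p = p₁ then 2 else (p - 1) * b)
        (fun p => if p = p₁ then 2 + 1 else (p - 1) * (b + 2)) := by
    intro h hh
    rw [Finset.mem_union]
    by_cases h1 : ¬ h ≡ 0 [MOD p₁] ∧ ¬ h ≡ 0 + 1 [MOD p₁]
    · exact Or.inl (hmem h hh 0 h1)
    · refine Or.inr (hmem h hh 2 ?_)
      have e0 : (0 : ℕ) % p₁ = 0 := Nat.mod_eq_of_lt (by omega)
      have e1 : (1 : ℕ) % p₁ = 1 := Nat.mod_eq_of_lt (by omega)
      have e2 : (2 : ℕ) % p₁ = 2 := Nat.mod_eq_of_lt (by omega)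
      have e3 : (3 : ℕ) % p₁ = 3 := Nat.mod_eq_of_lt (by omega)
      have h2 : h % p₁ = 0 ∨ h % p₁ = 1 := by
        by_contra h3
        push Not at h3
        apply h1
        unfold Nat.ModEq
        rw [e0, zero_add, e1]
        exact h3
      unfold Nat.ModEq
      rw [e2, e3]
      omega
  have h7 : (S.card : ℝ) ≤
      ((SC W₀ w H 1 0 0 (fun p => if p = p₁ then 0 else (p - 1) * b)
        (fun p => if p = p₁ then 0 + 1 else (p - 1) * (b + 2))).card : ℝ) +
      ((SC W₀ w H 1 0 0 (fun p => if p = p₁ then 2 else (p - 1) * b)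
        (fun p => if p = p₁ then 2 + 1 else (p - 1) * (b + 2))).card : ℝ) := by
    exact_mod_cast (Finset.card_le_card hsub).trans (Finset.card_union_le _ _)
  have h8 := main 0 (by omega)
  have h9 := main 2 (by omega)
  linarith

theorem lower {W₀ W₁ D₀ : ℕ} (hW0 : 4 ≤ W₀)
    (hPC : ∀ (w H M t h0 : ℕ) (c c' : ℕ → ℕ),
      W₁ ≤ w → 1 ≤ M → (∀ p ∈ pr W₀ w, ¬ p ∣ M ∧ ¬ c p ≡ c' p [MOD p]) → M * w ^ D₀ ≤ H →
      (H : ℝ) / M * gg W₀ w 2 ≤ 2 * ((SC W₀ w H M t h0 c c').card : ℝ))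
    {q a : ℕ} (hq : 1 ≤ q) (hqa : Nat.Coprime (a * (a + 2)) q) {R : ℕ} (hR1 : 1 ≤ R)
    (hRp : ∀ p : ℕ, p.Prime → (p ∣ R ↔ p ≤ W₀ ∧ ¬ p ∣ q))
    {w p₁ b H : ℕ} (hw : W₁ ≤ w) (hH : q * (R * w ^ D₀ + 4) ≤ H) :
    (H : ℝ) / (8 * (q * R)) * gg W₀ w 2 ≤
      (((Icc 1 H).filter (fun h => b + h ≡ a [MOD q] ∧
      Nat.Coprime (b + h) (Qm q p₁ w) ∧ Nat.Coprime (b + h + 2) (Qm q p₁ w))).card : ℝ) := by
  have hco : Nat.Coprime q R := by
    refine Nat.coprime_of_dvd fun p hp h1 h2 => ?_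
    exact ((hRp p hp).1 h2).2 h1
  obtain ⟨r, hr1, hr2⟩ := Nat.chineseRemainder hco a (R - 1)
  set N := r + q * R * b with hN
  have hbN : b ≤ N := by
    have h1 : 1 * b ≤ q * R * b := Nat.mul_le_mul_right _ (Nat.mul_pos hq hR1)
    omega
  have hNq : N ≡ a [MOD q] := by
    have h1 : r + q * R * b ≡ r + 0 [MOD q] := by
      refine Nat.ModEq.add_left _ (Nat.modEq_zero_iff_dvd.2 ?_)
      exact ⟨R * b, by ring⟩
    exact h1.trans hr1
  have hNR : N ≡ R - 1 [MOD R] := by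
    have h1 : r + q * R * b ≡ r + 0 [MOD R] := by
      refine Nat.ModEq.add_left _ (Nat.modEq_zero_iff_dvd.2 ?_)
      exact ⟨q * b, by ring⟩
    exact h1.trans hr2
  set h0 := (N - b) % q with hh0
  set k0 := (N - b) / q with hk0
  have hsum : b + h0 + q * k0 = N := by
    have h1 := Nat.mod_add_div (N - b) q
    rw [← hh0, ← hk0] at h1
    omega
  have hh0q : h0 < q := Nat.mod_lt _ hq
  -- the residues
  have hex1 : ∀ p : ℕ, ∃ c, p.Prime → ¬ p ∣ q → p ∣ b + h0 + q * c := by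
    intro p
    by_cases h1 : p.Prime ∧ ¬ p ∣ q
    · obtain ⟨c, hc⟩ := exres (b + h0) h1.1 h1.2
      exact ⟨c, fun _ _ => hc⟩
    · exact ⟨0, fun h2 h3 => absurd ⟨h2, h3⟩ h1⟩
  have hex2 : ∀ p : ℕ, ∃ c, p.Prime → ¬ p ∣ q → p ∣ b + h0 + 2 + q * c := by
    intro p
    by_cases h1 : p.Prime ∧ ¬ p ∣ q
    · obtain ⟨c, hc⟩ := exres (b + h0 + 2) h1.1 h1.2
      exact ⟨c, fun _ _ => hc⟩
    · exact ⟨0, fun h2 h3 => absurd ⟨h2, h3⟩ h1⟩
  choose d1 hd1 using hex1
  choose d2 hd2 using hex2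
  set K := H / q - 1 with hK
  have hHq : R * w ^ D₀ + 4 ≤ H / q := by
    rw [Nat.le_div_iff_mul_le hq, mul_comm]
    exact hH
  have hKR : R * w ^ D₀ ≤ K := by omega
  have hKH : q * (K + 1) ≤ H := by
    have : K + 1 = H / q := by omega
    rw [this]
    exact Nat.mul_div_le H q
  set c := fun p : ℕ => if p ∣ q then 0 else d1 p with hc
  set c' := fun p : ℕ => if p ∣ q then 1 else d2 p with hc'
  have h1 := hPC w K R 0 k0 c c' hw hR1 (fun p hp => ?_) hKR
  · have h2 : (SC W₀ w K R 0 k0 c c').card ≤ ((Icc 1 H).filter (fun h => b + h ≡ a [MOD q] ∧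
      Nat.Coprime (b + h) (Qm q p₁ w) ∧ Nat.Coprime (b + h + 2) (Qm q p₁ w))).card := by
      refine Finset.card_le_card_of_injOn (fun k => h0 + q * k) (fun k hk => ?_) ?_
      · obtain ⟨k1, k2, k3⟩ := Finset.mem_filter.1 hk
        have k4 := Finset.mem_Ioc.1 k1
        have k5 : b + (h0 + q * k) ≡ N [MOD R] := by
          rw [← hsum, ← add_assoc]
          exact (k2.mul_left q).add_left _
        have k6 : b + (h0 + q * k) ≡ N [MOD q] := by
          rw [← hsum, ← add_assoc]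
          refine Nat.ModEq.add_left _ ?_
          exact (Nat.modEq_zero_iff_dvd.2 (dvd_mul_right q k)).trans
            (Nat.modEq_zero_iff_dvd.2 (dvd_mul_right q k0)).symm
        have k7 : b + (h0 + q * k) ≡ a [MOD q] := k6.trans hNq
        have k8 : b + (h0 + q * k) ≡ R - 1 [MOD R] := k5.trans hNR
        refine Finset.mem_coe.2 (Finset.mem_filter.2 ⟨Finset.mem_Icc.2 ⟨?_, ?_⟩, k7,
          cop ?_ (fun p hp => ?_), cop ?_ (fun p hp => ?_)⟩)
        · have : q * 1 ≤ q * k := Nat.mul_le_mul_left q k4.1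
          show 1 ≤ h0 + q * k
          omega
        · show h0 + q * k ≤ H
          have h3 : q * k ≤ q * K := Nat.mul_le_mul_left q (by omega)
          have h4 : q * (K + 1) = q * K + q := by ring
          omega
        · have h3 : Nat.Coprime a q := Nat.Coprime.coprime_mul_right hqa
          have := k7.gcd_eq
          unfold Nat.Coprime
          rw [this]
          exact h3
        · obtain ⟨hpw, hpp, _, hpq⟩ := Finset.mem_filter.1 hp
          have hpw' := Finset.mem_Icc.1 hpw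
          intro hd
          by_cases hpW : p ≤ W₀
          · have h3 : p ∣ R := (hRp p hpp).2 ⟨hpW, hpq⟩
            have h4 : p ∣ R - 1 :=
              (Nat.modEq_zero_iff_dvd.1 ((k8.of_dvd h3).symm.trans
                (Nat.modEq_zero_iff_dvd.2 hd)))
            have h5 : p ∣ R - (R - 1) := Nat.dvd_sub h3 h4
            have h6 : R - (R - 1) = 1 := by omega
            rw [h6] at h5
            exact hpp.one_lt.ne' (Nat.dvd_one.1 h5)
          · have h3 : p ∈ pr W₀ w :=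
              Finset.mem_filter.2 ⟨Finset.mem_Ioc.2 ⟨by omega, hpw'.2⟩, hpp⟩
            have h4 := (k3 p h3).1
            simp only [hc, if_neg hpq] at h4
            have h5 := hd1 p hpp hpq
            apply h4
            have h6 : b + h0 + q * k ≡ b + h0 + q * d1 p [MOD p] := by
              rw [add_assoc b h0]
              exact (Nat.modEq_zero_iff_dvd.2 hd).trans (Nat.modEq_zero_iff_dvd.2 h5).symm
            have h7 : q * k ≡ q * d1 p [MOD p] := Nat.ModEq.add_left_cancel' _ h6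
            exact Nat.ModEq.cancel_left_of_coprime
              ((Nat.Prime.coprime_iff_not_dvd hpp).2 hpq) h7
        · have h3 : Nat.Coprime (a + 2) q := Nat.Coprime.coprime_mul_left hqa
          have := (k7.add_right 2).gcd_eq
          unfold Nat.Coprime
          rw [this]
          exact h3
        · obtain ⟨hpw, hpp, _, hpq⟩ := Finset.mem_filter.1 hp
          have hpw' := Finset.mem_Icc.1 hpw
          intro hd
          by_cases hpW : p ≤ W₀
          · have h3 : p ∣ R := (hRp p hpp).2 ⟨hpW, hpq⟩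
            have h4 : p ∣ R - 1 + 2 :=
              (Nat.modEq_zero_iff_dvd.1 (((k8.add_right 2).of_dvd h3).symm.trans
                (Nat.modEq_zero_iff_dvd.2 hd)))
            have h5 : R - 1 + 2 = R + 1 := by omega
            rw [h5] at h4
            have h6 : p ∣ 1 := (Nat.dvd_add_right h3).1 h4
            exact hpp.one_lt.ne' (Nat.dvd_one.1 h6)
          · have h3 : p ∈ pr W₀ w :=
              Finset.mem_filter.2 ⟨Finset.mem_Ioc.2 ⟨by omega, hpw'.2⟩, hpp⟩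
            have h4 := (k3 p h3).2
            simp only [hc', if_neg hpq] at h4
            have h5 := hd2 p hpp hpq
            apply h4
            have h6 : b + h0 + 2 + q * k ≡ b + h0 + 2 + q * d2 p [MOD p] := by
              have h8 : b + h0 + 2 + q * k = b + (h0 + q * k) + 2 := by ring
              rw [h8]
              exact (Nat.modEq_zero_iff_dvd.2 hd).trans (Nat.modEq_zero_iff_dvd.2 h5).symm
            have h7 : q * k ≡ q * d2 p [MOD p] := Nat.ModEq.add_left_cancel' _ h6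
            exact Nat.ModEq.cancel_left_of_coprime
              ((Nat.Prime.coprime_iff_not_dvd hpp).2 hpq) h7
      · intro k _ k' _ hkk
        simp only [add_right_inj] at hkk
        exact Nat.eq_of_mul_eq_mul_left hq hkk
    have h3 : ((SC W₀ w K R 0 k0 c c').card : ℝ) ≤
      (((Icc 1 H).filter (fun h => b + h ≡ a [MOD q] ∧
      Nat.Coprime (b + h) (Qm q p₁ w) ∧ Nat.Coprime (b + h + 2) (Qm q p₁ w))).card : ℝ) := by
      exact_mod_cast h2
    have hgg : 0 ≤ gg W₀ w 2 := by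
      unfold gg
      refine Finset.prod_nonneg fun p hp => ?_
      have h2 : (2 : ℝ) ≤ p := by exact_mod_cast (Finset.mem_filter.1 hp).2.two_le
      rw [sub_nonneg, div_le_one (by linarith)]
      exact_mod_cast h2
    have hqr : (0 : ℝ) < q := by exact_mod_cast hq
    have hRr : (0 : ℝ) < R := by exact_mod_cast hR1
    have h4 : (H : ℝ) / (4 * q) ≤ K := by
      rw [div_le_iff₀ (by positivity)]
      have h5 : H < q * (H / q) + q := by
        have h6 := Nat.div_add_mod H q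
        have h7 := Nat.mod_lt H hq
        omega
      have h6 : H ≤ K * (4 * q) := by
        have h7 : H / q = K + 1 := by omega
        rw [h7] at h5
        have h8 : 3 ≤ K := by omega
        have h9 : q * 3 ≤ q * K := Nat.mul_le_mul_left q h8
        have h10 : q * (K + 1) = q * K + q := by ring
        have h11 : K * (4 * q) = 4 * (q * K) := by ring
        omega
      exact_mod_cast h6
    have h5 : (H : ℝ) / (8 * (q * R)) * gg W₀ w 2 ≤ (K : ℝ) / R * gg W₀ w 2 / 2 := by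
      have h6 : (H : ℝ) / (8 * (q * R)) ≤ (K : ℝ) / R / 2 := by
        have h7 : (H : ℝ) / (8 * (q * R)) = (H : ℝ) / (4 * q) / R / 2 := by
          field_simp
          ring
        rw [h7]
        gcongr
      calc (H : ℝ) / (8 * (q * R)) * gg W₀ w 2 ≤ (K : ℝ) / R / 2 * gg W₀ w 2 :=
            mul_le_mul_of_nonneg_right h6 hgg
        _ = (K : ℝ) / R * gg W₀ w 2 / 2 := by ring
    linarith
  · obtain ⟨hp', hpp⟩ := Finset.mem_filter.1 hp
    have hp'' := Finset.mem_Ioc.1 hp'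
    constructor
    · intro h
      have := ((hRp p hpp).1 h).1
      omega
    · simp only [hc, hc']
      split_ifs with h2
      · intro h3
        unfold Nat.ModEq at h3
        rw [Nat.mod_eq_of_lt hpp.pos, Nat.mod_eq_of_lt hpp.one_lt] at h3
        omega
      · intro h3
        have e1 := hd1 p hpp h2
        have e2 := hd2 p hpp h2
        have h4 : b + h0 + 2 + q * d1 p ≡ b + h0 + 2 + q * d2 p [MOD p] :=
          (h3.mul_left q).add_left _
        have h5 : p ∣ b + h0 + 2 + q * d1 p :=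
          Nat.modEq_zero_iff_dvd.1 (h4.trans (Nat.modEq_zero_iff_dvd.2 e2))
        have h6 : b + h0 + 2 + q * d1 p = b + h0 + q * d1 p + 2 := by ring
        rw [h6] at h5
        have h7 : p ∣ 2 := (Nat.dvd_add_right e1).1 h5
        have := Nat.le_of_dvd (by norm_num) h7
        omega

theorem jp (h1 : StmtPC) : StmtJP := by
  obtain ⟨W₀, W₁, D₀, hW0, hW01, hPC⟩ := h1
  obtain ⟨c1, C1, hc1, hC1, hgg⟩ := ggb W₀ hW0
  intro q a hq hqa
  set R := ∏ p ∈ (Icc 1 W₀).filter (fun p => p.Prime ∧ ¬ p ∣ q), p with hR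
  have hR1 : 1 ≤ R := by
    rw [hR]
    refine Nat.succ_le_of_lt (Finset.prod_pos fun p hp => ?_)
    exact (Finset.mem_filter.1 hp).2.1.pos
  have hRp : ∀ p : ℕ, p.Prime → (p ∣ R ↔ p ≤ W₀ ∧ ¬ p ∣ q) := by
    intro p hp
    rw [hR, hp.prime.dvd_finsetProd_iff]
    constructor
    · rintro ⟨l, hl, hd⟩
      obtain ⟨l1, l2, l3⟩ := Finset.mem_filter.1 hl
      rw [(Nat.prime_dvd_prime_iff_eq hp l2).1 hd]
      exact ⟨(Finset.mem_Icc.1 l1).2, l3⟩
    · rintro ⟨l1, l2⟩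
      exact ⟨p, Finset.mem_filter.2 ⟨Finset.mem_Icc.2 ⟨hp.one_le, l1⟩, hp, l2⟩, dvd_rfl⟩
  have hqr : (0 : ℝ) < q := by exact_mod_cast hq
  have hRr : (0 : ℝ) < R := by exact_mod_cast hR1
  refine ⟨D₀ + 1, max W₁ (q * (R + 4)), c1 / (8 * (q * R)), 4 * C1, by positivity,
    fun w p₁ b H hw hp1 hp5 hpq hH => ?_⟩
  have hw1 : W₁ ≤ w := (le_max_left _ _).trans hw
  have hw2 : q * (R + 4) ≤ w := (le_max_right _ _).trans hw
  have hwpos : 1 ≤ w := by omega
  have hpow : 1 ≤ w ^ D₀ := Nat.one_le_pow _ _ hwpos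
  obtain ⟨g1, g2⟩ := hgg w (hW01.trans hw1)
  have hH0 : (0 : ℝ) ≤ H := Nat.cast_nonneg H
  constructor
  · have hH' : q * (R * w ^ D₀ + 4) ≤ H := by
      calc q * (R * w ^ D₀ + 4) ≤ q * (R * w ^ D₀ + 4 * w ^ D₀) := by
            refine Nat.mul_le_mul_left q ?_
            omega
        _ = q * (R + 4) * w ^ D₀ := by ring
        _ ≤ w * w ^ D₀ := Nat.mul_le_mul_right _ hw2
        _ = w ^ (D₀ + 1) := by ring
        _ ≤ H := hH
    refine le_trans ?_ (lower (p₁ := p₁) (b := b) hW0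
      (fun w H M t h0 c c' h1 h2 h3 h4 => (hPC w H M t h0 c c' h1 h2 h3 h4).1)
      hq hqa hR1 hRp hw1 hH')
    calc c1 / (8 * (q * R)) * (H / Real.log w ^ 2)
        = (H : ℝ) / (8 * (q * R)) * (c1 / Real.log w ^ 2) := by ring
      _ ≤ (H : ℝ) / (8 * (q * R)) * gg W₀ w 2 :=
          mul_le_mul_of_nonneg_left g1 (by positivity)
  · have hH' : w ^ D₀ ≤ H := (Nat.pow_le_pow_right hwpos (Nat.le_succ D₀)).trans hH
    refine (upper (q := q) (b := b) hW0
      (fun w H M t h0 c c' h1 h2 h3 h4 => (hPC w H M t h0 c c' h1 h2 h3 h4).2)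
      hw1 hp5 hH').trans ?_
    calc 4 * ((H : ℝ) * gg W₀ w 2) ≤ 4 * ((H : ℝ) * (C1 / Real.log w ^ 2)) := by gcongr
      _ = 4 * C1 * (H / Real.log w ^ 2) := by ring

end Pool.Agent.Helper36.TW
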