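import Pool.Agent.Helper76.TW.Goals
import Pool.Agent.Helper80.TU.SU

/-!
# MP_74f661_nt, project T74, packet SU2: a bound for the weight at an integer with few rough points
-/

set_option autoImplicit false

open Finset Filter Topology

open scoped Classical

namespace Pool.Agent.Helper36.TW

open Pool.Agent.Helper88.TU (size Su)
open Pool.Agent.Helper76.TW
open Pool.Agent.Helper80.TU (sum_labels num_end)
open Pool.Agent.Helper5.GM (card_large sum_label)
open Pool.Agent.Helper88.PP (pr Rg om Sf SS uu vv ee LA VV QQ cost nc dd)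
open Pool.Agent.Helper88.RR (gg ab TB nz Db VM)
open Pool.Agent.Helper85.RR (ab_nonneg card_TB mem_TB)
open Pool.Agent.Helper3.PP (mem_SS mem_LA)

theorem vR_le (y z s n : ℕ) : |vR (R2 y z) s n| ≤ |vv y z s n| := by
  unfold vR vv
  by_cases h0 : s = 0
  · rw [if_pos h0, if_pos h0]
  · rw [if_neg h0, if_neg h0]
    by_cases h1 : R2 y z n
    · rw [if_pos h1, if_pos h1.1]
    · rw [if_neg h1, abs_zero]
      exact abs_nonneg _

theorem su2 : StmtSU2 := by
  obtain ⟨C, hC1, hC⟩ := Pool.Agent.Helper31.RR.cb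
  obtain ⟨E1, hsize⟩ := size
  refine ⟨E1 + 1000 + ⌈C⌉₊ + ⌈Real.log C⌉₊,
    fun E z x y hE hSr m q hm hqm hVV hK P hP n hn hR => ?_⟩
  obtain ⟨_, _, _, _, _, _, _, _, hyz, hz64, _, _, _, _⟩ := hsize E z x y (by omega) hSr
  obtain ⟨s1, s2, s3, s4, s5⟩ := hSr
  have hE1 : 1000 ≤ E := by omega
  have hE2 : Real.log C ≤ E := by
    refine (Nat.le_ceil _).trans ?_
    exact_mod_cast (by omega : ⌈Real.log C⌉₊ ≤ E)
  have hEr : (1000 : ℝ) ≤ E := by exact_mod_cast hE1
  have hEz : E ≤ z := by
    have h1 : (E : ℝ) ≤ z := by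
      have := Real.add_one_le_exp (E : ℝ)
      linarith
    exact_mod_cast h1
  have hz2 : 2 ≤ z := by omega
  set M := E / 16 with hM
  set K := M / m with hKdef
  set R : Finset P := univ.filter (fun i => R2 y z (n + (i : ℕ))) with hRdef
  have hRcard : R.card ≤ E ^ 3 := by
    refine le_trans (le_of_eq ?_) hR
    have : (P.filter (fun h => R2 y z (n + h))) = R.map (Function.Embedding.subtype _) := by
      ext i
      simp only [hRdef, Finset.mem_map, Finset.mem_filter, Finset.mem_univ, true_and,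
        Function.Embedding.coe_subtype, Subtype.exists, exists_and_left, exists_prop,
        exists_eq_right_right]
      exact and_comm
    rw [this, Finset.card_map]
  -- one point
  have hS : ∀ i : P, ∑ s ∈ LA z m (q * m), ab m q z s * |vR (R2 y z) s (n + (i : ℕ))| ≤
      C * 2 ^ E := by
    intro i
    have hi := Finset.mem_Icc.1 (hP i.2)
    refine (Finset.sum_le_sum fun s _ =>
      mul_le_mul_of_nonneg_left (vR_le y z s _) (ab_nonneg _ _ _ _)).trans ?_
    refine sum_label (fun d hd => ?_) (by linarith) (by omega) (card_large (by omega) ?_)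
    · exact (hC m q (q * m) z hm hz2 (by omega) hVV d hd).1
    · have h1 : n + (i : ℕ) < 32 * (z + 1) ^ E + z := by omega
      have h2 : 32 * (z + 1) ^ E + z ≤ (z + 1) ^ (E + 1) := by
        rw [pow_succ]
        have h3 : 1 ≤ (z + 1) ^ E := Nat.one_le_pow _ _ (by omega)
        have h4 : (z + 1) ^ E * (z + 1) = z * (z + 1) ^ E + (z + 1) ^ E := by ring
        have h5 : z + 31 * (z + 1) ^ E ≤ z * (z + 1) ^ E := by
          obtain ⟨u, hu⟩ : ∃ u, z = u + 31 := ⟨z - 31, by omega⟩
          obtain ⟨v, hv⟩ : ∃ v, (z + 1) ^ E = v + 1 := ⟨(z + 1) ^ E - 1, by omega⟩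
          rw [hv, hu]
          have h6 : 32 ≤ u := by omega
          have h8 : (u + 31) ≤ (z + 1) ^ E := by
            have h9 : (z + 1) ^ 1 ≤ (z + 1) ^ E := Nat.pow_le_pow_right (by omega) (by omega)
            rw [pow_one] at h9
            omega
          have h10 : 32 * (v + 1) ≤ u * (v + 1) := Nat.mul_le_mul_right _ h6
          have h11 : (u + 31) * (v + 1) = u * (v + 1) + 31 * (v + 1) := by ring
          omega
        omega
      omega
  -- the sum
  have hW : |W2 m q M z y P n| ≤ (1 + R.card * (C * 2 ^ E)) ^ K := by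
    unfold W2
    refine (Finset.abs_sum_le_sum_abs _ _).trans ?_
    have h1 : ∀ r ∈ TB m q M z P,
        |∏ i : P, ((if r i = 0 then 1 else - ab m q z (r i)) * vR (R2 y z) (r i) (n + (i : ℕ)))| =
        ∏ i : P, (fun (i : P) (s : ℕ) => if s = 0 then (1 : ℝ) else
          ab m q z s * |vR (R2 y z) s (n + (i : ℕ))|) i (r i) := by
      intro r _
      rw [Finset.abs_prod]
      refine Finset.prod_congr rfl fun i _ => ?_
      simp only
      split_ifs with h0
      · rw [h0, one_mul]
        unfold vR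
        rw [if_pos rfl, abs_one]
      · rw [abs_mul, abs_neg, abs_of_nonneg (ab_nonneg _ _ _ _)]
    rw [Finset.sum_congr rfl h1]
    have hne : ∀ s ∈ LA z m (q * m), s ≠ 0 := by
      intro s hs
      have := (mem_SS.1 (mem_LA.1 hs).1).1.1
      omega
    refine sum_labels (L := LA z m (q * m)) (TB m q M z P) K (C * 2 ^ E) R
      (fun (i : P) (s : ℕ) => if s = 0 then (1 : ℝ) else
        ab m q z s * |vR (R2 y z) s (n + (i : ℕ))|)
      (by positivity) (fun r hr => (mem_TB hr).1) (fun r hr => card_TB hm hz2 hr)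
      (fun i => if_pos rfl) (fun i s => ?_) (fun i _ => ?_) (fun i hi s hs => ?_)
    · split_ifs
      · exact zero_le_one
      · exact mul_nonneg (ab_nonneg _ _ _ _) (abs_nonneg _)
    · refine le_trans (le_of_eq ?_) (hS i)
      refine Finset.sum_congr rfl fun s hs => ?_
      rw [if_neg (hne s hs)]
    · have h0 := hne s hs
      have h2 : ¬ R2 y z (n + (i : ℕ)) := by
        intro h3
        exact hi (Finset.mem_filter.2 ⟨Finset.mem_univ _, h3⟩)
      rw [if_neg h0]
      unfold vR
      rw [if_neg h0, if_neg h2, abs_zero, mul_zero]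
  have hC0 : 0 < C := by linarith
  calc W2 m q M z y P n ^ 2 = |W2 m q M z y P n| ^ 2 := (sq_abs _).symm
    _ ≤ ((1 + (R.card : ℝ) * (C * 2 ^ E)) ^ K) ^ 2 := pow_le_pow_left₀ (abs_nonneg _) hW 2
    _ ≤ Real.exp ((E : ℝ) ^ 2 / 2) := num_end hE1 hRcard hC0 hE2 hK

end Pool.Agent.Helper36.TW
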